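import Pool.Agent.Q216.ZD.Spec2

set_option autoImplicit false

/-!
# Project ZD: groups with the doubling property have uniformly packed orbits
-/

namespace Pool.Agent.Q195.ZD.Grow

open Pool.Agent.Q216.ZD

variable {G : Type} [Group G] {v : ℕ → G} {L : ℕ}

theorem act_pr [MulAction G R] (w : List ℕ) (X : R) :
    act (fun c X => v c • X) w X = (w.map v).prod • X := by
  induction w with
  | nil => simp [act]
  | cons c w ih =>
    show v c • act _ w X = _
    rw [ih, List.map_cons, List.prod_cons, mul_smul]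

theorem bal_finite (v : ℕ → G) (L n : ℕ) : (bal v L n).Finite := by
  have h : bal v L n = (fun w : List ℕ => (w.map v).prod) '' {w | w ∈ WL L n} := by
    ext g
    simp [bal]
  rw [h]
  exact (List.finite_toSet _).image _

theorem bal_mul {m n : ℕ} {x y : G} (hx : x ∈ bal v L m) (hy : y ∈ bal v L n) :
    x * y ∈ bal v L (m + n) := by
  obtain ⟨a, ha, rfl⟩ := hx
  obtain ⟨b, hb, rfl⟩ := hy
  obtain ⟨a1, a2⟩ := mem_WL.1 ha
  obtain ⟨b1, b2⟩ := mem_WL.1 hb
  refine ⟨a ++ b, mem_WL.2 ⟨wd_append a1 b1, ?_⟩, by simp⟩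
  rw [List.length_append]
  omega

theorem bal_mono {m n : ℕ} (h : m ≤ n) : bal v L m ⊆ bal v L n := by
  rintro x ⟨w, hw, rfl⟩
  obtain ⟨h1, h2⟩ := mem_WL.1 hw
  exact ⟨w, mem_WL.2 ⟨h1, h2.trans h⟩, rfl⟩

theorem prod_iv (hv : ∀ c < L, v (c ^^^ 1) = (v c)⁻¹) {w : List ℕ} (hw : Wd L w) :
    ((iv w).map v).prod = ((w.map v).prod)⁻¹ := by
  induction w with
  | nil => simp [iv_nil]
  | cons c w ih =>
    rw [iv_cons, List.map_append, List.prod_append, ih (wd_tail hw)]
    simp [hv c (hw c (by simp))]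

theorem bal_inv (hL : L % 2 = 0) (hv : ∀ c < L, v (c ^^^ 1) = (v c)⁻¹) {n : ℕ} {x : G}
    (hx : x ∈ bal v L n) : x⁻¹ ∈ bal v L n := by
  obtain ⟨w, hw, rfl⟩ := hx
  obtain ⟨h1, h2⟩ := mem_WL.1 hw
  exact ⟨iv w, mem_WL.2 ⟨wd_iv hL h1, by rw [iv_length]; exact h2⟩, prod_iv hv h1⟩

theorem one_mem (n : ℕ) : (1 : G) ∈ bal v L n := ⟨[], nil_mem_WL n, by simp⟩

theorem t_GROW : S_GROW := by
  intro G _ _ v L hL hv hC
  obtain ⟨C, hC⟩ := hC
  refine ⟨C ^ 4 + Nat.card (bal v L 4), ?_⟩
  set K := C ^ 4 + Nat.card (bal v L 4) with hK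
  intro X n g hg
  by_contra hcon
  push Not at hcon
  let h : Fin (K + 1) → G := fun i => ((g i).map v).prod
  have hh : ∀ i, h i ∈ bal v L (4 * 2 ^ n) := fun i => ⟨g i, hg i, rfl⟩
  have hsep : ∀ i j, i ≠ j → h j * (h i)⁻¹ ∉ bal v L (2 ^ n) := by
    intro i j hij hm
    obtain ⟨w, hw, hwe⟩ := hm
    refine hcon i j hij ⟨w, hw, ?_⟩
    rw [act_pr, act_pr, act_pr, hwe, ← mul_smul]
    simp [h]
  have hinj : Function.Injective h := by
    intro i j hij
    by_contra hne
    refine hsep i j hne ?_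
    rw [hij, mul_inv_cancel]
    exact one_mem _
  rcases Nat.eq_zero_or_pos n with rfl | hn
  · -- distinct elements of the ball of radius four
    have h1 : Nat.card (Fin (K + 1)) ≤ Nat.card (bal v L 4) := by
      have : Finite (bal v L 4) := (bal_finite v L 4).to_subtype
      refine Nat.card_le_card_of_injective (fun i => (⟨h i, by simpa using hh i⟩ : bal v L 4)) ?_
      intro i j hij
      exact hinj (congrArg Subtype.val hij)
    rw [Nat.card_eq_fintype_card, Fintype.card_fin] at h1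
    omega
  · obtain ⟨k, rfl⟩ : ∃ k, n = k + 1 := ⟨n - 1, by omega⟩
    set m := 2 ^ k with hm
    have hn2 : 2 ^ (k + 1) = 2 * m := by rw [pow_succ, hm]; ring
    rw [hn2] at hsep hh
    have : Finite (bal v L m) := (bal_finite v L m).to_subtype
    have : Finite (bal v L (2 * (2 * (2 * (2 * m))))) := (bal_finite v L _).to_subtype
    have h1 : Nat.card (Fin (K + 1) × bal v L m) ≤ Nat.card (bal v L (2 * (2 * (2 * (2 * m))))) := by
      refine Nat.card_le_card_of_injective
        (fun p => (⟨p.2.1 * h p.1, bal_mono (by omega) (bal_mul p.2.2 (hh p.1))⟩ :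
          bal v L (2 * (2 * (2 * (2 * m)))))) ?_
      rintro ⟨i, x⟩ ⟨j, y⟩ hij
      have he : x.1 * h i = y.1 * h j := congrArg Subtype.val hij
      have hij' : i = j := by
        by_contra hne
        refine hsep i j hne ?_
        have : h j * (h i)⁻¹ = (y.1)⁻¹ * x.1 := by
          have h2 : h j = (y.1)⁻¹ * (x.1 * h i) := by rw [he]; group
          rw [h2]
          group
        rw [this]
        exact bal_mono (by omega) (bal_mul (bal_inv hL hv y.2) x.2)
      subst hij'
      have : x = y := Subtype.ext (mul_right_cancel he)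
      rw [this]
    have h2 : Nat.card (bal v L (2 * (2 * (2 * (2 * m))))) ≤ C ^ 4 * Nat.card (bal v L m) := by
      calc Nat.card (bal v L (2 * (2 * (2 * (2 * m)))))
          ≤ C * (C * (C * (C * Nat.card (bal v L m)))) := by
            refine (hC _).trans (Nat.mul_le_mul_left _ ?_)
            refine (hC _).trans (Nat.mul_le_mul_left _ ?_)
            refine (hC _).trans (Nat.mul_le_mul_left _ ?_)
            exact hC _
        _ = C ^ 4 * Nat.card (bal v L m) := by ring
    have h3 : 0 < Nat.card (bal v L m) := Nat.card_pos_iff.2 ⟨⟨⟨1, one_mem m⟩⟩, inferInstance⟩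
    rw [Nat.card_prod, Nat.card_eq_fintype_card (α := Fin (K + 1)), Fintype.card_fin] at h1
    have h4 := h1.trans h2
    have h5 : K + 1 ≤ C ^ 4 := Nat.le_of_mul_le_mul_right h4 h3
    omega

end Pool.Agent.Q195.ZD.Grow
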