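import Pool.Agent.Q216.ZD.Spec2

set_option autoImplicit false

/-!
# Project ZD: the inverse of a computable bijection of the Cantor space is computable
-/

namespace Pool.Agent.Q195.ZD.Invc

open Encodable Pool.Agent.Helper227 Pool.Agent.H548R2.Post
open Nat.Partrec (Code)
open Pool.Agent.TH769.TP (Via lab Unb FF mon_FF lim_FF pf_FF)
open Pool.Agent.TH769.CD (pf_pow pf_getD pf_length pf_range pf_testBit pf_pre pp_lt pp_eq)
open Pool.Agent.Q216.ZD

attribute [local fun_prop] Primrec
attribute [local fun_prop] Primrec.id Primrec.const Primrec.comp Primrec.pair Primrec.fst Primrec.snd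
attribute [local fun_prop] pf_pow pf_getD pf_length pf_range pf_testBit

/-- the string of the first `N` binary digits of `c` -/
def bits (c N : ℕ) : List Bool := pre (fun k => c.testBit k) N

theorem exists_bits (X : R) (N : ℕ) : ∃ c < 2 ^ N, bits c N = pre X N := by
  refine ⟨Nat.ofBits (fun i : Fin N => X i), Nat.ofBits_lt_two_pow _, ?_⟩
  unfold bits pre
  refine List.map_congr_left fun k hk => ?_
  rw [List.mem_range] at hk
  exact Nat.testBit_ofBits_lt _ _ hk

theorem bits_length (c N : ℕ) : (bits c N).length = N := length_pre _ _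

/-- the string `s` is not compatible with `Z` -/
def Bad (i : Code) (Z : R) (s : List Bool) : Prop :=
  ∃ k ∈ List.range (FF i s).length, Z k = !((FF i s).getD k false)

/-- the relation -/
def PP (i : Code) (Z : R) (x : Unit × ℕ × Bool) : Prop :=
  ∃ N, ∀ c < 2 ^ N, Bad i Z (bits c N) ∨ (x.2.1 < N ∧ (bits c N).getD x.2.1 false = x.2.2)

theorem us_PP (i : Code) : US (PP i) := by
  have hb : Primrec fun y : ((Unit × ℕ × Bool) × ℕ) × ℕ => bits y.2 y.1.2 :=
    pf_pre (by fun_prop) (by fun_prop)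
  have hF : Primrec fun y : ((Unit × ℕ × Bool) × ℕ) × ℕ => FF i (bits y.2 y.1.2) :=
    (pf_FF i).comp hb
  have h1 : US fun (Z : R) (y : ((Unit × ℕ × Bool) × ℕ) × ℕ) => Bad i Z (bits y.2 y.1.2) := by
    refine US.ex_mem (P := fun (Z : R) (y : ((Unit × ℕ × Bool) × ℕ) × ℕ) (k : ℕ) =>
      Z k = !((FF i (bits y.2 y.1.2)).getD k false)) ?_ (pf_range (pf_length hF))
    refine US.comp (f := fun z : (((Unit × ℕ × Bool) × ℕ) × ℕ) × ℕ =>
      (z.2, !((FF i (bits z.1.2 z.1.1.2)).getD z.2 false))) US.query ?_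
    exact Primrec.pair (by fun_prop)
      (Primrec.not.comp (pf_getD (hF.comp Primrec.fst) (by fun_prop)))
  have h2 : US fun (_ : R) (y : ((Unit × ℕ × Bool) × ℕ) × ℕ) =>
      (y.1.1.2.1 < y.1.2 ∧ (bits y.2 y.1.2).getD y.1.1.2.1 false = y.1.1.2.2) :=
    US.of_prim ((pp_lt (by fun_prop) (by fun_prop)).and
      (pp_eq (pf_getD hb (by fun_prop)) (by fun_prop)))
  exact US.ex (US.all_lt (P := fun (Z : R) (y : (Unit × ℕ × Bool) × ℕ) (c : ℕ) =>
    Bad i Z (bits c y.2) ∨ (y.1.2.1 < y.2 ∧ (bits c y.2).getD y.1.2.1 false = y.1.2.2))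
    (h1.or h2) (by fun_prop))

theorem not_bad {i : Code} {Z : R} {s : List Bool} (h : ¬ Bad i Z s) {k : ℕ}
    (hk : k < (FF i s).length) : (FF i s).getD k false = Z k := by
  by_contra hc
  refine h ⟨k, List.mem_range.2 hk, ?_⟩
  cases h1 : Z k <;> cases h2 : (FF i s).getD k false <;> simp_all

/-- the cylinders -/
theorem isClosed_pre (N : ℕ) (Tr : List Bool → Prop) : IsClosed {Y : R | Tr (pre Y N)} := by
  have h : {Y : R | Tr (pre Y N)} =
      ⋃ c ∈ {c : ℕ | c < 2 ^ N ∧ Tr (bits c N)}, {Y : R | ∀ k < N, Y k = c.testBit k} := by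
    ext Y
    simp only [Set.mem_iUnion, Set.mem_ofPred_eq]
    constructor
    · intro hY
      obtain ⟨c, hc, hcb⟩ := exists_bits Y N
      refine ⟨c, ⟨hc, hcb ▸ hY⟩, fun k hk => ?_⟩
      have h1 : (bits c N).getD k false = (pre Y N).getD k false := by rw [hcb]
      unfold bits at h1
      rw [pre_getD _ _ _ _ hk, pre_getD _ _ _ _ hk] at h1
      exact h1.symm
    · rintro ⟨c, ⟨-, hT⟩, hk⟩
      have : pre Y N = bits c N := List.map_congr_left fun k hk' => hk k (List.mem_range.1 hk')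
      rw [this]
      exact hT
  rw [h]
  refine Set.Finite.isClosed_biUnion ((Set.finite_lt_nat (2 ^ N)).subset fun c hc => hc.1) ?_
  intro c _
  have h2 : {Y : R | ∀ k < N, Y k = c.testBit k} = ⋂ k, ⋂ (_ : k < N), {Y : R | Y k = c.testBit k} := by
    ext Y
    simp
  rw [h2]
  exact isClosed_iInter fun k => isClosed_iInter fun _ =>
    isClosed_eq (continuous_apply k) continuous_const

theorem konig (Tr : List Bool → Prop) (hp : ∀ s t, s <+: t → Tr t → Tr s)
    (hN : ∀ N, ∃ X : R, Tr (pre X N)) : ∃ X : R, ∀ N, Tr (pre X N) := by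
  have h := IsCompact.nonempty_iInter_of_sequence_nonempty_isCompact_isClosed
    (fun N => {Y : R | Tr (pre Y N)})
    (fun N Y hY => hp _ _ (pre_prefix Y (Nat.le_succ N)) hY) hN
    (isClosed_pre 0 Tr).isCompact (fun N => isClosed_pre N Tr)
  obtain ⟨X, hX⟩ := h
  exact ⟨X, fun N => Set.mem_iInter.1 hX N⟩

theorem t_INVC (h0 : S_PROG) : S_INVC := by
  intro i T hT hvia
  obtain ⟨I, -, hI⟩ := h0 Unit (PP i) (us_PP i)
  refine ⟨I (), fun X => hI () (T X) X fun m b => ⟨?_, ?_⟩⟩
  · rintro ⟨N, hN⟩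
    obtain ⟨c, hc, hcb⟩ := exists_bits X N
    rcases hN c hc with h1 | ⟨h1, h2⟩
    · rw [hcb] at h1
      obtain ⟨k, hk, h2⟩ := h1
      obtain ⟨n, hn⟩ := (lim_FF (hvia X)).ok N
      rw [hn, List.mem_range, length_pre] at hk
      rw [hn, pre_getD _ _ _ _ hk] at h2
      cases h3 : T X k <;> simp [h3] at h2
    · rw [hcb] at h2
      simp only at h1 h2
      rwa [pre_getD _ _ _ _ h1] at h2
  · intro hb
    by_contra hcon
    unfold PP at hcon
    push Not at hcon
    have hpre : ∀ s t : List Bool, s <+: t → (¬ Bad i (T X) t ∧ (m < t.length → t.getD m false ≠ b)) →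
        ¬ Bad i (T X) s ∧ (m < s.length → s.getD m false ≠ b) := by
      rintro s t ⟨u, rfl⟩ ⟨h1, h2⟩
      constructor
      · rintro ⟨k, hk, h3⟩
        rw [List.mem_range] at hk
        obtain ⟨v, hv⟩ := mon_FF.mono (F := FF i) s (s ++ u) (List.prefix_append _ _)
        refine h1 ⟨k, List.mem_range.2 ?_, ?_⟩
        · rw [← hv, List.length_append]
          omega
        · rw [h3, ← hv, List.getD_append _ _ _ _ hk]
      · intro hm
        have h3 := h2 (by rw [List.length_append]; omega)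
        rwa [List.getD_append _ _ _ _ hm] at h3
    have hex : ∀ N, ∃ Y : R, ¬ Bad i (T X) (pre Y N) ∧
        (m < (pre Y N).length → (pre Y N).getD m false ≠ b) := by
      intro N
      obtain ⟨c, hc, h1, h2⟩ := hcon N
      refine ⟨fun k => c.testBit k, h1, ?_⟩
      intro hm
      rw [length_pre] at hm
      exact h2 hm
    obtain ⟨X', hX'⟩ := konig (fun s => ¬ Bad i (T X) s ∧ (m < s.length → s.getD m false ≠ b))
      hpre hex
    have h1 : T X' = T X := by
      funext k
      obtain ⟨M, hM⟩ := (lim_FF (hvia X')).long (k + 1)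
      obtain ⟨n, hn⟩ := (lim_FF (hvia X')).ok M
      have h2 := hM M le_rfl
      have h3 := not_bad (hX' M).1 (k := k) (by omega)
      rw [hn] at h3 h2
      rw [length_pre] at h2
      rw [pre_getD _ _ _ _ (by omega)] at h3
      exact h3
    have h2 := hT.1 h1
    have h3 := (hX' (m + 1)).2 (by rw [length_pre]; omega)
    rw [pre_getD _ _ _ _ (by omega), h2] at h3
    exact h3 hb

end Pool.Agent.Q195.ZD.Invc
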